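import Mathlib

open Finset

namespace Pool.Agent.Results.MP_106823_nt.Divergent

/-- the trajectory `x_0 = x`, `x_n = (3 x_(n-1) + 1) / 2^(a_n)` -/
def orb (x : ℕ) : ℕ → ℕ
  | 0 => x
  | n + 1 => (3 * orb x n + 1) / 2 ^ padicValNat 2 (3 * orb x n + 1)

/-- the E-sequence of `x`: for `n ≥ 1`, the exponent of `2` in `3 x_(n-1) + 1` -/
def eseq (x n : ℕ) : ℕ := padicValNat 2 (3 * orb x (n - 1) + 1)

open Classical in
/-- `q_n = 2` for `n = 2^2, 3^2, ...` and `q_n = 1` otherwise -/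
noncomputable def q (n : ℕ) : ℕ := if ∃ k, 2 ≤ k ∧ n = k ^ 2 then 2 else 1

/-- the difference operators -/
def D {R : Type} [CommRing R] : ℕ → (ℕ → R) → ℕ → R
  | 0, w => w
  | J + 1, w => fun m => 9 ^ (J + 1) * D J w (m + 1) - 4 ^ (J + 1) * D J w m

lemma D_cast (K J : ℕ) (w : ℕ → ℤ) : ∀ m, ((D J w m : ℤ) : ZMod K) = D J (fun m => (w m : ZMod K)) m := by
  induction J with
  | zero => intro m; rfl
  | succ J ih => intro m; simp [D, ih]

lemma D_sum {R : Type} [CommRing R] (s : Finset ℕ) (c r : ℕ → R) (J : ℕ) : ∀ m,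
    D J (fun m => ∑ j ∈ s, c j * r j ^ m) m =
      ∑ j ∈ s, c j * r j ^ m * ∏ i ∈ range J, (9 ^ (i + 1) * r j - 4 ^ (i + 1)) := by
  induction J with
  | zero => intro m; simp [D]
  | succ J ih =>
    intro m
    simp only [D, ih, mul_sum, ← sum_sub_distrib, prod_range_succ]
    exact sum_congr rfl fun j _ => by ring

lemma D_bound (w : ℕ → ℤ) (B : ℕ → ℝ) (hB : Monotone B) (h : ∀ m, |(w m : ℝ)| ≤ B m) (J : ℕ) :
    ∀ m, |((D J w m : ℤ) : ℝ)| ≤ 2 ^ J * 3 ^ (J * (J + 1)) * B (m + J) := by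
  induction J with
  | zero => intro m; simpa [D] using h m
  | succ J ih =>
    intro m
    have h1 := ih (m + 1)
    have h2 := ih m
    have h3 : B (m + J) ≤ B (m + 1 + J) := hB (by omega)
    have h4 : (4 : ℝ) ^ (J + 1) ≤ 9 ^ (J + 1) := pow_le_pow_left₀ (by norm_num) (by norm_num) _
    have h5 : (3 : ℝ) ^ ((J + 1) * (J + 1 + 1)) = 9 ^ (J + 1) * 3 ^ (J * (J + 1)) := by
      rw [show (9 : ℝ) = 3 ^ 2 by norm_num, ← pow_mul, ← pow_add]; congr 1; ring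
    simp only [D]
    push_cast
    refine (abs_sub _ _).trans ?_
    rw [abs_mul, abs_mul, abs_of_pos (by positivity), abs_of_pos (a := (4 : ℝ) ^ _) (by positivity),
      h5, show m + (J + 1) = m + 1 + J by ring]
    have h6 : |((D J w m : ℤ) : ℝ)| ≤ 2 ^ J * 3 ^ (J * (J + 1)) * B (m + 1 + J) :=
      h2.trans (by gcongr)
    calc _ ≤ (9 : ℝ) ^ (J + 1) * (2 ^ J * 3 ^ (J * (J + 1)) * B (m + 1 + J)) +
        9 ^ (J + 1) * (2 ^ J * 3 ^ (J * (J + 1)) * B (m + 1 + J)) := by gcongr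
      _ = _ := by ring

lemma expand {R : Type} [CommRing R] (t : R) (w : ℕ → R)
    (h : ∀ m, w m = (2 * t) ^ (2 * m + 3) * (2 * w (m + 1) - 1)) (N : ℕ) : ∀ m,
    w m = ∑ j ∈ range N, -(2 ^ j * (2 * t) ^ ((j + 1) * (j + 3))) * ((2 * t) ^ (2 * (j + 1))) ^ m +
      2 ^ N * ((2 * t) ^ (N * (N + 2) + 2 * N * m) * w (m + N)) := by
  induction N with
  | zero => intro m; simp
  | succ N ih =>
    intro m
    rw [sum_range_succ, add_assoc, ih m, h (m + N), ← pow_mul]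
    congr 1
    ring

lemma key0 {R : Type} [CommRing R] (t : R) (ht : 3 * t = 1) (w : ℕ → R)
    (h : ∀ m, 3 ^ (2 * m + 3) * w m = 2 ^ (2 * m + 3) * (2 * w (m + 1) - 1))
    (J : ℕ) (h2 : (2 : R) ^ (4 * J ^ 2 + 8 * J + 3 + 1) = 0) :
    ∃ u : R, IsUnit u ∧ D J w J = 2 ^ (4 * J ^ 2 + 8 * J + 3) * u := by
  have htu : IsUnit t := IsUnit.of_mul_eq_one_right _ ht
  have hw : ∀ m, w m = (2 * t) ^ (2 * m + 3) * (2 * w (m + 1) - 1) := by
    intro m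
    rw [mul_pow, mul_comm (2 ^ _), mul_assoc, ← h, ← mul_assoc, ← mul_pow, mul_comm t, ht]
    simp
  have he : w = fun m => ∑ j ∈ range (4 * J ^ 2 + 8 * J + 3 + 1),
      -(2 ^ j * (2 * t) ^ ((j + 1) * (j + 3))) * ((2 * t) ^ (2 * (j + 1))) ^ m := by
    funext m
    rw [expand t w hw (4 * J ^ 2 + 8 * J + 3 + 1) m, h2, zero_mul, add_zero]
  have hf : ∀ i e : ℕ, (9 : R) ^ (i + 1) * (2 * t) ^ (2 * (i + e + 1)) - 4 ^ (i + 1) =
      4 ^ (i + 1) * ((2 * t) ^ (2 * e) - 1) := by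
    intro i e
    have : (9 : R) ^ (i + 1) * (2 * t) ^ (2 * (i + 1)) = 4 ^ (i + 1) := by
      rw [pow_mul, ← mul_pow]; congr 1; linear_combination (4 * (3 * t + 1)) * ht
    rw [show 2 * (i + e + 1) = 2 * (i + 1) + 2 * e by ring, pow_add (2 * t), ← mul_assoc, this]
    ring
  have hp : ∀ j, J ≤ j → ∏ i ∈ range J, ((9 : R) ^ (i + 1) * (2 * t) ^ (2 * (j + 1)) - 4 ^ (i + 1)) =
      2 ^ (J * (J + 1)) * ∏ i ∈ range J, ((2 * t) ^ (2 * (j - i)) - 1) := by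
    intro j hj
    have : (2 : R) ^ (J * (J + 1)) = ∏ i ∈ range J, 4 ^ (i + 1) := by
      clear * -
      induction J with
      | zero => simp
      | succ J ih =>
        rw [prod_range_succ, ← ih, show (4 : R) = 2 ^ 2 by norm_num, ← pow_mul, ← pow_add]
        congr 1; ring
    rw [this, ← prod_mul_distrib]
    refine prod_congr rfl fun i hi => ?_
    rw [← hf, show i + (j - i) = j by have := mem_range.1 hi; omega]
  rw [he, D_sum, sum_eq_single J]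
  · refine ⟨-(t ^ ((J + 1) * (J + 3) + 2 * (J + 1) * J) *
      ∏ i ∈ range J, ((2 * t) ^ (2 * (J - i)) - 1)), ?_, ?_⟩
    · refine ((htu.pow _).mul (IsUnit.prod_iff.2 fun i hi => ?_)).neg
      apply IsNilpotent.isUnit_sub_one
      apply IsNilpotent.pow_of_pos _ (by have := mem_range.1 hi; omega)
      exact ⟨_, by rw [mul_pow, h2, zero_mul]⟩
    · rw [hp J le_rfl, ← pow_mul, mul_pow, mul_pow]
      ring
  · intro j _ hj
    rcases lt_or_gt_of_ne hj with hj | hj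
    · rw [prod_eq_zero (mem_range.2 hj), mul_zero]
      simpa using hf j 0
    · obtain ⟨e, rfl⟩ := Nat.exists_eq_add_of_lt hj
      rw [hp _ hj.le, ← pow_mul, mul_pow, mul_pow]
      generalize ∏ i ∈ range J, ((2 * t) ^ (2 * (J + e + 1 - i)) - 1) = P
      generalize t ^ ((J + e + 1 + 1) * (J + e + 1 + 3)) = t1
      generalize t ^ (2 * (J + e + 1 + 1) * J) = t2
      linear_combination (-(2 : R) ^ (e ^ 2 + 4 * J * e + 7 * e + 4 * J + 5) * t1 * t2 * P) * h2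
  · intro hJ
    exact absurd (mem_range.2 (by omega)) hJ

lemma key (w : ℕ → ℤ) (h : ∀ m, 3 ^ (2 * m + 3) * w m = 2 ^ (2 * m + 3) * (2 * w (m + 1) - 1))
    (J : ℕ) : (2 : ℤ) ^ (4 * J ^ 2 + 8 * J + 3) ≤ |D J w J| := by
  obtain ⟨K, hK⟩ : ∃ K, K = 2 ^ (4 * J ^ 2 + 8 * J + 3 + 1) := ⟨_, rfl⟩
  have h2 : (2 : ZMod K) ^ (4 * J ^ 2 + 8 * J + 3 + 1) = 0 := by
    have := (ZMod.natCast_eq_zero_iff (2 ^ (4 * J ^ 2 + 8 * J + 3 + 1)) K).2 (hK ▸ dvd_rfl)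
    exact_mod_cast this
  obtain ⟨t, ht⟩ : ∃ t : ZMod K, 3 * t = 1 := by
    have : IsUnit ((3 : ℕ) : ZMod K) :=
      (ZMod.isUnit_iff_coprime _ _).2 (hK ▸ Nat.Coprime.pow_right _ (by norm_num))
    exact_mod_cast this.exists_right_inv
  obtain ⟨u, hu, hD⟩ := key0 t ht (fun m => (w m : ZMod K))
    (fun m => by exact_mod_cast congrArg (Int.cast : ℤ → ZMod K) (h m)) J h2
  rw [← D_cast] at hD
  generalize 4 * J ^ 2 + 8 * J + 3 = V at *
  have h0 : D J w J ≠ 0 := by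
    intro h0
    rw [h0, Int.cast_zero, eq_comm, hu.mul_left_eq_zero] at hD
    have : ((2 ^ V : ℕ) : ZMod K) = 0 := by exact_mod_cast hD
    rw [ZMod.natCast_eq_zero_iff, hK, Nat.pow_dvd_pow_iff_le_right (by norm_num)] at this
    omega
  apply Int.le_of_dvd (abs_pos.2 h0)
  rw [dvd_abs]
  have : ((2 * D J w J : ℤ) : ZMod K) = 0 := by
    push_cast
    rw [hD, ← mul_assoc, ← pow_succ', h2, zero_mul]
  rw [ZMod.intCast_zmod_eq_zero_iff_dvd, hK] at this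
  push_cast at this
  rw [pow_succ'] at this
  exact Int.dvd_of_mul_dvd_mul_left two_ne_zero this

lemma step (y : ℕ) : 2 ^ padicValNat 2 (3 * y + 1) *
    ((3 * y + 1) / 2 ^ padicValNat 2 (3 * y + 1)) = 3 * y + 1 :=
  Nat.mul_div_cancel' pow_padicValNat_dvd

theorem result : ¬ ∃ x, Odd x ∧ 0 < x ∧ ∀ n, 1 ≤ n → eseq x n = q n := by
  rintro ⟨x, _, _, ha⟩
  have hs : ∀ n, 2 ^ q (n + 1) * orb x (n + 1) = 3 * orb x n + 1 := by
    intro n
    rw [← ha _ (by omega)]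
    exact step _
  have h1 : ∀ m i, i ≤ 2 * m + 2 → 2 ^ i * (orb x ((m + 1) ^ 2 + i) + 1) =
      3 ^ i * (orb x ((m + 1) ^ 2) + 1) := by
    intro m i
    induction i with
    | zero => simp
    | succ i ih =>
      intro hi
      have := hs ((m + 1) ^ 2 + i)
      rw [q, if_neg] at this
      · rw [pow_succ 3, mul_right_comm, ← ih (by omega), ← add_assoc]
        linear_combination 2 ^ i * this
      · rintro ⟨k, _, hk⟩
        have a1 : m + 1 < k := lt_of_pow_lt_pow_left₀ 2 (by omega) (by omega)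
        have a2 : k < m + 2 := lt_of_pow_lt_pow_left₀ 2 (by omega) (by nlinarith)
        omega
  let w : ℕ → ℤ := fun m => orb x ((m + 1) ^ 2) + 1
  have hw : ∀ m, 3 ^ (2 * m + 3) * w m = 2 ^ (2 * m + 3) * (2 * w (m + 1) - 1) := by
    intro m
    have a1 := h1 m _ le_rfl
    have a2 := hs ((m + 1) ^ 2 + (2 * m + 2))
    rw [show (m + 1) ^ 2 + (2 * m + 2) + 1 = (m + 1 + 1) ^ 2 by ring, q,
      if_pos ⟨_, by omega, rfl⟩] at a2
    zify at a1 a2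
    simp only [w]
    linear_combination -3 * a1 - 2 ^ (2 * m + 2) * a2
  have hpos : ∀ m, 1 ≤ w m := fun m => by simp [w]
  have hB : ∀ m, |(w m : ℝ)| ≤ w 0 * (3 / 2) ^ (m * (m + 2)) := by
    intro m
    rw [abs_of_nonneg (by exact_mod_cast (hpos m).trans' zero_le_one)]
    induction m with
    | zero => simp
    | succ m ih =>
      have a1 : (3 : ℝ) ^ (2 * m + 3) * w m = 2 ^ (2 * m + 3) * (2 * w (m + 1) - 1) := by
        exact_mod_cast hw m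
      have a2 : (1 : ℝ) ≤ w (m + 1) := by exact_mod_cast hpos _
      have a3 : 2 * (w (m + 1) : ℝ) - 1 = (3 / 2) ^ (2 * m + 3) * w m := by
        rw [div_pow]; field_simp; linarith
      calc (w (m + 1) : ℝ) ≤ (3 / 2) ^ (2 * m + 3) * w m := by linarith
        _ ≤ (3 / 2) ^ (2 * m + 3) * (w 0 * (3 / 2) ^ (m * (m + 2))) := by gcongr
        _ = _ := by ring
  have hw0 : (1 : ℝ) ≤ w 0 := by exact_mod_cast hpos 0
  obtain ⟨J, hJ⟩ := pow_unbounded_of_one_lt (w 0 : ℝ) (one_lt_two)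
  have b1 := D_bound w _ (fun a b hab => by
    show (w 0 : ℝ) * (3 / 2) ^ (a * (a + 2)) ≤ w 0 * (3 / 2) ^ (b * (b + 2))
    gcongr; norm_num) hB J J
  have b2 : (2 : ℝ) ^ (4 * J ^ 2 + 8 * J + 3) ≤ |((D J w J : ℤ) : ℝ)| := by
    exact_mod_cast key w hw J
  have b3 : (2 : ℝ) ^ J * 3 ^ (J * (J + 1)) * (3 / 2) ^ ((J + J) * (J + J + 2)) =
      (3 * (3 / 2) ^ 4) ^ (J ^ 2) * (6 * (3 / 2) ^ 4) ^ J := by
    rw [show (6 : ℝ) = 2 * 3 by norm_num]
    simp only [mul_pow, ← pow_mul]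
    ring
  have b4 : ((3 : ℝ) * (3 / 2) ^ 4) ^ (J ^ 2) ≤ (2 ^ 4) ^ (J ^ 2) :=
    pow_le_pow_left₀ (by norm_num) (by norm_num) _
  have b5 : ((6 : ℝ) * (3 / 2) ^ 4) ^ J ≤ (2 ^ 7) ^ J :=
    pow_le_pow_left₀ (by norm_num) (by norm_num) _
  have b6 : (2 : ℝ) ^ (4 * J ^ 2 + 8 * J + 3) = 8 * ((2 ^ 4) ^ (J ^ 2) * (2 ^ 7) ^ J * 2 ^ J) := by
    simp only [← pow_mul]
    ring
  have b7 : (2 : ℝ) ^ J * 3 ^ (J * (J + 1)) * (w 0 * (3 / 2) ^ ((J + J) * (J + J + 2))) ≤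
      (2 ^ 4) ^ (J ^ 2) * (2 ^ 7) ^ J * 2 ^ J := by
    rw [mul_left_comm, b3, mul_comm]
    gcongr
  have b8 : (0 : ℝ) < (2 ^ 4) ^ (J ^ 2) * (2 ^ 7) ^ J * 2 ^ J := by positivity
  have b9 := (b6 ▸ b2).trans (b1.trans b7)
  generalize ((2 : ℝ) ^ 4) ^ (J ^ 2) * (2 ^ 7) ^ J * 2 ^ J = Z at b8 b9
  linarith

end Pool.Agent.Results.MP_106823_nt.Divergent
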